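import Pool.Agent.helper52.FC.Main

/-!
# Polytopes whose 1-skeleton is the tope graph of an oriented matroid

Let `L` be a simple oriented matroid and `P` a polytope whose `1`-skeleton is the tope graph of `L`. An
element `e` is flat if the edges of `P` which flip `e` are parallel, or the lines spanned by them have a
common point. The restriction of `L` to the flat elements is realizable.

The definitions are in `Pool/Agent/helper52/FC/Defs.lean`.
-/

set_option autoImplicit false

namespace Pool.Agent.Results.MP_ad2b66_co.FlatClasses

open Pool.Agent.helper52.FC

theorem result (E : Type) [Finite E] (L : Set (E → SignType)) (hL : IsOM L) (hs : IsSimple L)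
    (d : ℕ) (P : Set (EuclideanSpace ℝ (Fin d)))
    (hP : ∃ s : Finset (EuclideanSpace ℝ (Fin d)),
      P = convexHull ℝ (s : Set (EuclideanSpace ℝ (Fin d))))
    (φ : topeGraph L ≃g skeleton P) :
    ∃ v : {e : E // Flat φ e} → EuclideanSpace ℝ (Fin d), restr L (Flat φ) = arr v :=
  flat_classes hL hs hP φ

end Pool.Agent.Results.MP_ad2b66_co.FlatClasses
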