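import Pool.Agent.helper66.SL.MainK

/-!
# Polytopes with the graph of a simplicial oriented matroid

`L` is a simple simplicial oriented matroid, `P` a full dimensional polytope in `ℝ^r`, where every tope of `L`
has exactly `r` neighbours in the tope graph, and `φ` an isomorphism from the tope graph to the 1-skeleton of
`P`. Then the faces of `P` are the convex hulls of the vertices `φ T`, `T` above a covector `X`, and this is
an order reversing bijection between covectors and nonempty faces.

`IsOM`, `IsSimple`, `IsTope`, `Le`, `topeGraph`, `skeleton` are defined in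
`Pool/Agent/helper52/FC/Defs.lean`, `Simplicial` in `Pool/Agent/helper66/SL/Defs.lean`.
-/

set_option autoImplicit false

namespace Pool.Agent.Results.MP_ad2b66_co.KalaiSimplicial

open Pool.Agent.helper52.FC Pool.Agent.helper66.SL

theorem result (E : Type) [Finite E] (L : Set (E → SignType)) (hL : IsOM L) (hs : IsSimple L)
    (hb : Simplicial L) (r : ℕ) (P : Set (EuclideanSpace ℝ (Fin r)))
    (hP : ∃ s : Finset (EuclideanSpace ℝ (Fin r)),
      P = convexHull ℝ (s : Set (EuclideanSpace ℝ (Fin r))))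
    (hi : (interior P).Nonempty) (hr : ∀ T, ((topeGraph L).neighborSet T).ncard = r)
    (φ : topeGraph L ≃g skeleton P) :
    (∀ F : Set (EuclideanSpace ℝ (Fin r)), (IsExposed ℝ P F ∧ F.Nonempty) ↔
      ∃ X ∈ L, F = convexHull ℝ {x | ∃ T : {T // IsTope L T}, Le X T.1 ∧ x = (φ T).1}) ∧
    ∀ X ∈ L, ∀ Y ∈ L,
      (convexHull ℝ {x | ∃ T : {T // IsTope L T}, Le X T.1 ∧ x = (φ T).1} ⊆
        convexHull ℝ {x | ∃ T : {T // IsTope L T}, Le Y T.1 ∧ x = (φ T).1} ↔ Le Y X) := by
  have hG : Good L := ⟨hL, hs, hb⟩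
  have hreg : ∀ T, IsTope L T → {e | Wall L T e}.ncard = r := by
    intro T hT
    rw [← hr ⟨T, hT⟩]
    refine Set.ncard_congr (fun e he => (⟨fl T e, he⟩ : {T : E → SignType // IsTope L T})) ?_ ?_ ?_
    · intro e he
      refine ⟨e, ?_, fun g hg => (fl_ne T hg).symm⟩
      change T e ≠ fl T e e
      rw [fl_same]
      exact fun h => tope_supp hL hs hT e (sneg h rfl)
    · intro e e' he he' h
      by_contra hne
      have h1 := congrFun (congrArg Subtype.val h) e
      change fl T e e = fl T e' e at h1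
      rw [fl_same, fl_ne _ hne] at h1
      exact tope_supp hL hs hT e (sneg h1.symm rfl)
    · rintro ⟨S, hS⟩ ⟨e, he, he'⟩
      have h1 : S = fl T e := by
        funext g
        by_cases hg : g = e
        · subst hg
          rw [fl_same]
          exact sne (tope_supp hL hs hS g) (tope_supp hL hs hT g) (Ne.symm he)
        · rw [fl_ne _ hg]
          exact (he' g hg).symm
      subst h1
      exact ⟨e, hS, rfl⟩
  have hset : ∀ X : E → SignType, {x | ∃ T : {T // IsTope L T}, Le X T.1 ∧ x = (φ T).1} =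
      {x | ∃ T, IsTope L T ∧ Le X T ∧ x = vp φ T} := by
    intro X
    ext x
    constructor
    · rintro ⟨⟨T, hT⟩, h1, rfl⟩
      exact ⟨T, hT, h1, by simp [vp, hT]⟩
    · rintro ⟨T, hT, h1, rfl⟩
      exact ⟨⟨T, hT⟩, h1, by simp [vp, hT]⟩
  have := Fintype.ofFinite E
  obtain ⟨h1, h2, h3⟩ := m_KFI E L r P φ ⟨hG, hP, hi, hreg⟩
  refine ⟨fun F => ⟨fun hF => ?_, ?_⟩, fun X hX Y hY => ?_⟩
  · obtain ⟨X, hX, hXF⟩ := h2 F hF
    exact ⟨X, hX, by rw [hset]; exact hXF⟩
  · rintro ⟨X, hX, rfl⟩
    rw [hset]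
    exact h1 X hX
  · rw [hset, hset]
    exact h3 X hX Y hY

end Pool.Agent.Results.MP_ad2b66_co.KalaiSimplicial
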