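import Pool.Agent.helper66.SL.Main

/-!
# A local to global principle for simplicial oriented matroids

A simple simplicial oriented matroid is realizable, and then its tope graph is the 1-skeleton of a
polytope, if and only if its localizations at the flats spanned by three elements have vector
realizations in `ℝ^3` which agree, up to linear maps, on the flats spanned by two elements.

`IsOM`, `IsSimple`, `IsTope`, `topeGraph`, `skeleton`, `restr`, `arr` are defined in
`Pool/Agent/helper52/FC/Defs.lean`, `Simplicial`, `Cl2`, `Cl3` in `Pool/Agent/helper66/SL/Defs.lean`.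
-/

set_option autoImplicit false

namespace Pool.Agent.Results.MP_ad2b66_co.LocalToGlobal

open Pool.Agent.helper52.FC Pool.Agent.helper66.SL

theorem result (E : Type) [Finite E] (L : Set (E → SignType)) (hL : IsOM L) (hs : IsSimple L)
    (hb : Simplicial L) :
    (∃ (d : ℕ) (v : E → EuclideanSpace ℝ (Fin d)), L = arr v ∧
      ∃ s : Finset (EuclideanSpace ℝ (Fin d)),
        Nonempty (topeGraph L ≃g skeleton (convexHull ℝ (s : Set (EuclideanSpace ℝ (Fin d)))))) ↔
    ∃ u : E → E → E → E → EuclideanSpace ℝ (Fin 3),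
      (∀ a b c, restr L (fun g => Cl3 L a b c g) = arr (fun g : {g // Cl3 L a b c g} => u a b c g)) ∧
      ∀ a b c a' b' c' d e, (∀ g, Cl2 L d e g → Cl3 L a b c g ∧ Cl3 L a' b' c' g) →
        ∃ A : EuclideanSpace ℝ (Fin 3) →ₗ[ℝ] EuclideanSpace ℝ (Fin 3),
          ∀ g, Cl2 L d e g → A (u a b c g) = u a' b' c' g := by
  have hG : Good L := ⟨hL, hs, hb⟩
  constructor
  · rintro ⟨d, v, hv, -⟩
    obtain ⟨u, hu⟩ := (main_LG E L hG).1 ⟨d, v, hv⟩
    exact ⟨u, hu.real, hu.compat⟩
  · rintro ⟨u, h1, h2⟩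
    obtain ⟨d, v, hv⟩ := (main_LG E L hG).2 ⟨u, ⟨h1, h2⟩⟩
    exact ⟨d, v, hv, main_poly E L hG v hv⟩

end Pool.Agent.Results.MP_ad2b66_co.LocalToGlobal
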