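import Pool.Agent.helper66.SL.Main

/-!
# Simplicial oriented matroids whose rank two flats have at most three elements are realizable

`L` is the set of the covectors of a simple simplicial oriented matroid on a finite set `E`, of any rank. If
any two elements span at most three elements, `L` is realizable, and its tope graph is the 1-skeleton of a
polytope.

`IsOM`, `IsSimple`, `IsTope`, `Le`, `topeGraph`, `skeleton`, `arr` are defined in
`Pool/Agent/helper52/FC/Defs.lean`, `Simplicial` in `Pool/Agent/helper66/SL/Defs.lean`.
-/

set_option autoImplicit false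

namespace Pool.Agent.Results.MP_ad2b66_co.SmallLines

open Pool.Agent.helper52.FC Pool.Agent.helper66.SL

theorem result (E : Type) [Finite E] (L : Set (E → SignType)) (hL : IsOM L) (hs : IsSimple L)
    (hb : Simplicial L)
    (hc : ∀ a b : E, a ≠ b → {g | ∀ X ∈ L, X a = 0 → X b = 0 → X g = 0}.ncard ≤ 3) :
    ∃ (d : ℕ) (v : E → EuclideanSpace ℝ (Fin d)), L = arr v ∧
      ∃ s : Finset (EuclideanSpace ℝ (Fin d)),
        Nonempty (topeGraph L ≃g skeleton (convexHull ℝ (s : Set (EuclideanSpace ℝ (Fin d))))) :=
  main_C E L ⟨hL, hs, hb⟩ hc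

end Pool.Agent.Results.MP_ad2b66_co.SmallLines
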